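import Pool.Agent.H8.MR.Stm

/-!
# Labelling of the cores

The proof follows that of `K1H57.HYC.A3` of the library. New: the forbidden labels `Fb v`. The
labels which are forbidden at more than `s / 64` vertices of a cluster (at most `128 p` labels) are
removed from its palette; there are `200 p` additional labels to compensate for this.
-/

set_option autoImplicit false
open Classical Finset

namespace Pool.Agent.H8.MR
open Pool.Agent.K1H34.HYC hiding load S_A1 S_A2 S_A3 S_COL

namespace A3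

theorem castle (n D k m : ℕ) (hk : m ≤ k) (h : (n : ℝ) ≤ (D : ℝ) / 2 ^ k) : 2 ^ m * n ≤ D := by
  have h1 : (n : ℝ) * 2 ^ k ≤ D := (le_div_iff₀ (by positivity)).mp h
  have h2 : n * 2 ^ k ≤ D := by exact_mod_cast h1
  calc 2 ^ m * n ≤ 2 ^ k * n := Nat.mul_le_mul_right _ (Nat.pow_le_pow_right (by norm_num) hk)
    _ = n * 2 ^ k := Nat.mul_comm _ _
    _ ≤ D := h2

theorem p_bound (D p : ℕ) (hD : 2 ^ 30 ≤ D) (hp : (p : ℝ) ≤ Real.log D) :
    8192 * p ≤ D := by
  have hDr : (2 ^ 30 : ℝ) ≤ D := by exact_mod_cast hD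
  have hD0 : (0 : ℝ) < D := by linarith [show (0 : ℝ) < 2 ^ 30 by positivity]
  have hs : Real.sqrt D * Real.sqrt D = D := Real.mul_self_sqrt hD0.le
  have hs1 : (32768 : ℝ) ≤ Real.sqrt D := by
    apply Real.le_sqrt_of_sq_le
    norm_num at hDr ⊢
    linarith
  have hl : Real.log D ≤ 2 * Real.sqrt D := by
    have h1 := Real.log_sqrt hD0.le
    have h2 := Real.log_le_sub_one_of_pos (Real.sqrt_pos.mpr hD0)
    linarith
  have h3 : (8192 * p : ℝ) ≤ D := by nlinarith
  exact_mod_cast h3

theorem pow_bound (p : ℕ) (hp : 1 ≤ p) : ((2 * p : ℕ) : ℝ) * (1 / 2) ^ (50 * p) ≤ 1 / 32 := by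
  have h1 : 2 * p * 32 ≤ 2 ^ (50 * p) := by
    have h2 : p < 2 ^ p := Nat.lt_two_pow_self
    calc 2 * p * 32 ≤ 2 ^ 6 * 2 ^ p := by omega
      _ = 2 ^ (6 + p) := (pow_add _ _ _).symm
      _ ≤ 2 ^ (50 * p) := Nat.pow_le_pow_right (by norm_num) (by omega)
  have h3 : ((2 * p : ℕ) : ℝ) * 32 ≤ 2 ^ (50 * p) := by exact_mod_cast h1
  rw [one_div, inv_pow, ← div_eq_mul_inv, div_le_div_iff₀ (by positivity) (by norm_num)]
  linarith

end A3

open A3 in
theorem t_A3 : S_HINJ → S_A3 := by
  intro HINJ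
  refine ⟨200, 2 ^ 30, ?_⟩
  intro D hD0 p hp hpl V _ G B Fb I K S Z q hdeg hB hB2 hFb hgood f1 f2 hf2 h1 h2
  have hp4 : 8192 * p ≤ D := p_bound D p hD0 hpl
  have hD00 : 2 ^ 30 ≤ D := hD0
  obtain ⟨E, hE⟩ : ∃ E : ℕ, E = 200 * p := ⟨_, rfl⟩
  rw [← hE]
  obtain ⟨X, instX, val, hval, hcore, hsurj⟩ : ∃ (X : Type) (_ : Fintype X) (val : X → V),
      Function.Injective val ∧ (∀ x, val x ∉ S ∧ val x ∉ Z) ∧
      ∀ v, v ∉ S → v ∉ Z → ∃ x, val x = v :=
    ⟨{v : V // v ∉ S ∧ v ∉ Z}, inferInstance, Subtype.val, Subtype.val_injective,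
      fun x => x.2, fun v h1 h2 => ⟨⟨v, h1, h2⟩, rfl⟩⟩
  obtain ⟨Γ, hΓ⟩ : ∃ Γ : SimpleGraph X, ∀ x y, Γ.Adj x y ↔ G.Adj (val x) (val y) :=
    ⟨G.comap val, fun x y => Iff.rfl⟩
  have hcov : ∀ x : X, ∃ i ∈ I, val x ∈ K i :=
    fun x => hgood.cover (val x) (hcore x).1 (hcore x).2
  choose cl hclI hclK using hcov
  have huniq : ∀ (v i j : V), i ∈ I → j ∈ I → v ∈ K i → v ∈ K j → i = j := by
    intro v i j hi hj hvi hvj
    by_contra hne
    exact (Finset.disjoint_left.mp (hgood.disj i hi j hj hne)) hvi hvj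
  have hfew : ∀ i ∈ I, 2 ^ 3 * (((K i).filter (fun v => v ∈ Z)).image q).card ≤ D :=
    fun i hi => castle _ _ 290 3 (by norm_num) (hgood.few i hi)
  have hout : ∀ i ∈ I, ∀ v ∈ K i, v ∉ Z → 2 ^ 10 * dg G (univ \ K i) v ≤ D :=
    fun i hi v hv hvZ => castle _ _ 300 10 (by norm_num) (hgood.out i hi v hv hvZ)
  have htot : ∀ i ∈ I, 2 ^ 10 * ∑ v ∈ K i, dg G (univ \ K i) v ≤ D ^ 2 := by
    intro i hi
    refine castle _ _ 590 10 (by norm_num) ?_
    push_cast
    exact hgood.tot i hi
  have h1' : ∀ i ∈ I, ∀ l, 2 ^ 10 * ∑ z ∈ S.filter (fun z => f1 z = l), dg G (K i) z ≤ D :=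
    fun i hi l => castle _ _ 10 10 le_rfl (h1 i hi l)
  have h2' : ∀ i ∈ I, ∀ l, 2 ^ 10 * ∑ u ∈ Z.filter (fun u => q u = u ∧ f2 u = l ∧
      ∀ z ∈ cls Z q u, z ∉ K i), ((K i).filter (fun v => v ∈ CN G Z q u)).card ≤ D :=
    fun i hi l => castle _ _ 10 10 le_rfl (h2 i hi l)
  obtain ⟨Bq, hBq⟩ : ∃ Bq : V → Finset ℕ, ∀ i, Bq i =
      if i ∈ I then ((K i).filter (fun z => z ∈ Z)).image f2 else ∅ := ⟨_, fun i => rfl⟩
  obtain ⟨s, hs⟩ : ∃ s : ℕ, s = (D + E + 2) / 2 := ⟨_, rfl⟩
  obtain ⟨Pop, hPop⟩ : ∃ Pop : V → Finset ℕ, ∀ i, Pop i = (range (D + E + 1)).filter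
      (fun l => s < 64 * (univ.filter (fun x => cl x = i ∧ l ∈ Fb (val x))).card) :=
    ⟨_, fun i => rfl⟩
  obtain ⟨Pal, hPal⟩ : ∃ Pal : V → Finset ℕ, ∀ i, Pal i = range (D + E + 1) \ (Bq i ∪ Pop i) :=
    ⟨_, fun i => rfl⟩
  obtain ⟨g, hg⟩ : ∃ g : V → ℕ, ∀ z, g z = if z ∈ S then f1 z else f2 z := ⟨_, fun i => rfl⟩
  obtain ⟨F, hF⟩ : ∃ F : Finset (X × ℕ), ∀ w, w ∈ F ↔ w.2 ≤ D + E ∧
      ((∃ z, (z ∈ S ∨ z ∈ Z) ∧ z ∉ K (cl w.1) ∧ G.Adj (val w.1) z ∧ w.2 = g z) ∨
        w.2 ∈ Fb (val w.1)) := by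
    refine ⟨(univ ×ˢ range (D + E + 1)).filter (fun w => (∃ z, (z ∈ S ∨ z ∈ Z) ∧ z ∉ K (cl w.1) ∧
      G.Adj (val w.1) z ∧ w.2 = g z) ∨ w.2 ∈ Fb (val w.1)), fun w => ?_⟩
    rw [mem_filter, mem_product, mem_range, Nat.lt_succ_iff]
    simp only [mem_univ, true_and]
  obtain ⟨P, hP⟩ : ∃ P : V → Finset (X × ℕ), ∀ x w, w ∈ P x ↔
      w.2 ≤ D + E ∧ G.Adj x (val w.1) ∧ w.2 ∈ B x (val w.1) := by
    refine ⟨fun x => (univ ×ˢ range (D + E + 1)).filter (fun w => G.Adj x (val w.1) ∧
      w.2 ∈ B x (val w.1)), fun x w => ?_⟩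
    rw [mem_filter, mem_product, mem_range, Nat.lt_succ_iff]
    simp only [mem_univ, true_and]
  have hBcard : ∀ i ∈ I, (Bq i).card ≤ (((K i).filter (fun v => v ∈ Z)).image q).card := by
    intro i hi
    have hsub : Bq i ⊆ (((K i).filter (fun v => v ∈ Z)).image q).image f2 := by
      rw [hBq, if_pos hi]
      intro l hl
      rw [mem_image] at hl
      obtain ⟨z, hz, rfl⟩ := hl
      rw [hf2 z (mem_filter.mp hz).2]
      exact mem_image_of_mem _ (mem_image_of_mem _ hz)
    exact (card_le_card hsub).trans card_image_le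
  have hclcard : ∀ i, (univ.filter (fun x => cl x = i)).card ≤
      ((K i).filter (fun v => v ∉ Z)).card := by
    intro i
    apply card_le_card_of_injOn val
    · intro x hx
      have hx' : cl x = i := (mem_filter.mp (mem_coe.mp hx)).2
      exact mem_coe.mpr (mem_filter.mpr ⟨hx' ▸ hclK x, (hcore x).2⟩)
    · exact hval.injOn
  have hempty : ∀ i, i ∉ I → ∀ x, cl x ≠ i := by
    intro i hi x hx
    exact hi (hx ▸ hclI x)
  have hPlow0 : ∀ i, D + E + 1 - ((Bq i).card + (Pop i).card) ≤ (Pal i).card := by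
    intro i
    rw [hPal]
    have h3 := le_card_sdiff (Bq i ∪ Pop i) (range (D + E + 1))
    have h4 := card_union_le (Bq i) (Pop i)
    rw [card_range] at h3
    omega
  have hPup : ∀ i, (Pal i).card ≤ D + E + 1 := by
    intro i
    rw [hPal]
    have := card_le_card (sdiff_subset (s := range (D + E + 1)) (t := Bq i ∪ Pop i))
    rwa [card_range] at this
  have hB0 : ∀ i, i ∉ I → (Bq i).card = 0 := by
    intro i hi
    rw [hBq, if_neg hi, card_empty]
  have hclD : ∀ i, (univ.filter (fun x => cl x = i)).card ≤ D + 1 := by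
    intro i
    by_cases hi : i ∈ I
    · have := hgood.cnt i hi
      have := hclcard i
      omega
    · have : (univ.filter (fun x => cl x = i)) = ∅ :=
        filter_eq_empty_iff.mpr (fun x _ => hempty i hi x)
      rw [this, card_empty]
      omega
  have hPopc : ∀ i, (Pop i).card ≤ E := by
    intro i
    have h3 : ∑ l ∈ Pop i, (univ.filter (fun x => cl x = i ∧ l ∈ Fb (val x))).card ≤
        (D + 1) * p := by
      rw [← card_sigma]
      have h4 : ((Pop i).sigma (fun l => univ.filter (fun x => cl x = i ∧ l ∈ Fb (val x)))).card ≤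
          ((univ.filter (fun x => cl x = i)).sigma (fun x => Fb (val x))).card := by
        apply card_le_card_of_injOn (fun w => ⟨w.2, w.1⟩)
        · rintro ⟨l, x⟩ hw
          rw [mem_coe, mem_sigma, mem_filter] at hw
          rw [mem_coe, mem_sigma, mem_filter]
          exact ⟨⟨mem_univ _, hw.2.2.1⟩, hw.2.2.2⟩
        · rintro ⟨l, x⟩ _ ⟨l', x'⟩ _ heq
          simp only [Sigma.mk.injEq, heq_eq_eq] at heq
          obtain ⟨rfl, rfl⟩ := heq
          rfl
      refine h4.trans ?_
      rw [card_sigma]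
      refine (sum_le_card_nsmul _ _ p (fun x _ => hFb (val x))).trans ?_
      rw [smul_eq_mul]
      exact Nat.mul_le_mul_right _ (hclD i)
    have h5 : (Pop i).card * s ≤ 64 * ∑ l ∈ Pop i,
        (univ.filter (fun x => cl x = i ∧ l ∈ Fb (val x))).card := by
      rw [mul_sum, ← smul_eq_mul]
      refine card_nsmul_le_sum _ _ _ ?_
      intro l hl
      rw [hPop, mem_filter] at hl
      exact hl.2.le
    have h6 : D + 1 ≤ 2 * s := by omega
    have h7 : (Pop i).card * s ≤ 64 * ((2 * s) * p) :=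
      h5.trans (Nat.mul_le_mul_left _ (h3.trans (Nat.mul_le_mul_right _ h6)))
    have h8 : (Pop i).card * s ≤ (128 * p) * s := by
      calc (Pop i).card * s ≤ 64 * ((2 * s) * p) := h7
        _ = (128 * p) * s := by ring
    have h9 : (Pop i).card ≤ 128 * p := Nat.le_of_mul_le_mul_right h8 (by omega)
    omega
  have hPlow : ∀ i, D + 1 - (Bq i).card ≤ (Pal i).card := by
    intro i
    have h3 := hPlow0 i
    have h4 := hPopc i
    omega
  have hlab : ∀ i l, (∑ o, ((P o).filter (fun z => cl z.1 = i ∧ z.2 = l)).card) ≤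
      (D + 1) * (2 * p) := by
    intro i l
    rw [← card_sigma]
    have h3 : (univ.sigma (fun o => (P o).filter (fun z => cl z.1 = i ∧ z.2 = l))).card ≤
        ((univ.filter (fun x => cl x = i)).sigma (fun v => univ.filter (fun o =>
          G.Adj (val v) o ∧ l ∈ B o (val v)))).card := by
      apply card_le_card_of_injOn (fun w => ⟨w.2.1, w.1⟩)
      · rintro ⟨o, w⟩ hw
        rw [mem_coe, mem_sigma, mem_filter, hP] at hw
        obtain ⟨_, ⟨_, hadj, hnear⟩, hcl, hl⟩ := hw
        rw [mem_coe, mem_sigma, mem_filter, mem_filter]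
        refine ⟨⟨mem_univ _, hcl⟩, mem_univ _, hadj.symm, ?_⟩
        simp only at hl hnear ⊢
        rw [← hl]
        exact hnear
      · rintro ⟨o, w⟩ hw ⟨o', w'⟩ hw' heq
        rw [mem_coe, mem_sigma, mem_filter] at hw hw'
        simp only [Sigma.mk.injEq, heq_eq_eq] at heq
        obtain ⟨h4, rfl⟩ := heq
        have h5 : w = w' := Prod.ext h4 (hw.2.2.2.trans hw'.2.2.2.symm)
        rw [h5]
    refine h3.trans ?_
    rw [card_sigma]
    refine (sum_le_card_nsmul _ _ (2 * p) ?_).trans ?_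
    · intro v _
      exact hB2 (val v) l
    · rw [smul_eq_mul]
      exact Nat.mul_le_mul_right _ (hclD i)
  have hrow : ∀ x, (∑ o, row (P o) x) ≤ D * (2 * p) := by
    intro x
    unfold row
    rw [← card_sigma]
    have h3 : (univ.sigma (fun o => (P o).filter (fun z => z.1 = x))).card ≤
        ((univ.filter (fun o => G.Adj (val x) o)).sigma (fun o => B o (val x))).card := by
      apply card_le_card_of_injOn (fun w => ⟨w.1, w.2.2⟩)
      · rintro ⟨o, w⟩ hw
        rw [mem_coe, mem_sigma, mem_filter, hP] at hw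
        obtain ⟨_, ⟨hD, hadj, hnear⟩, hx⟩ := hw
        simp only at hx hnear hadj hD
        rw [hx] at hadj hnear
        rw [mem_coe, mem_sigma, mem_filter]
        exact ⟨⟨mem_univ _, hadj.symm⟩, hnear⟩
      · rintro ⟨o, w⟩ hw ⟨o', w'⟩ hw' heq
        rw [mem_coe, mem_sigma, mem_filter] at hw hw'
        simp only [Sigma.mk.injEq, heq_eq_eq] at heq
        obtain ⟨rfl, h4⟩ := heq
        have h5 : w = w' := Prod.ext (hw.2.2.trans hw'.2.2.symm) h4
        rw [h5]
    refine h3.trans ?_
    rw [card_sigma]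
    refine (sum_le_card_nsmul _ _ (2 * p) ?_).trans ?_
    · intro v _
      exact hB v (val x)
    · rw [smul_eq_mul]
      exact Nat.mul_le_mul_right _ (hdeg (val x))
  have hPcard : ∀ o, (P o).card ≤ D * (2 * p) := by
    intro o
    have h3 : (P o).card ≤ ((univ.filter (fun v => G.Adj o v)).sigma (fun v => B o v)).card := by
      apply card_le_card_of_injOn (fun w => ⟨val w.1, w.2⟩)
      · rintro w hw
        rw [mem_coe, hP] at hw
        rw [mem_coe, mem_sigma, mem_filter]
        exact ⟨⟨mem_univ _, hw.2.1⟩, hw.2.2⟩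
      · rintro w _ w' _ heq
        simp only [Sigma.mk.injEq, heq_eq_eq] at heq
        exact Prod.ext (hval heq.1) heq.2
    refine h3.trans ?_
    rw [card_sigma]
    refine (sum_le_card_nsmul _ _ (2 * p) ?_).trans ?_
    · intro v _
      exact hB o v
    · rw [smul_eq_mul]
      exact Nat.mul_le_mul_right _ (hdeg o)
  have hpb := pow_bound p hp
  have hsD : (D : ℝ) / 2 + 1 / 2 ≤ s := by
    have : D + 1 ≤ 2 * s := by omega
    have h3 : (D : ℝ) + 1 ≤ 2 * s := by exact_mod_cast this
    linarith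
  obtain ⟨f, hf1, hf2', hf3, hf4, hf5⟩ := HINJ X V V
    Γ cl Pal F s (50 * p + 2) P (fun _ => 50 * p) (by omega) (by omega)
    (by
      intro i
      by_cases hi : i ∈ I
      · have h3 := hgood.cnt i hi
        have h4 := hclcard i
        have h5 := hPlow i
        have h6 := hBcard i hi
        omega
      · have : (univ.filter (fun x => cl x = i)) = ∅ :=
          filter_eq_empty_iff.mpr (fun x _ => hempty i hi x)
        rw [this, card_empty]
        omega)
    (by
      intro i
      have h3 := hPlow i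
      by_cases hi : i ∈ I
      · have h4 := hBcard i hi
        have h5 := hfew i hi
        omega
      · have h4 := hB0 i hi
        omega)
    (by
      intro i
      have := hPup i
      omega)
    (by
      intro o
      omega)
    (by
      intro x
      have h3 : row F x ≤ dg G (univ \ K (cl x)) (val x) + p := by
        unfold row dg
        have h4 : F.filter (fun z => z.1 = x) ⊆
            ((univ \ K (cl x)).filter (fun y => G.Adj (val x) y)).image (fun z => (x, g z)) ∪
              (Fb (val x)).image (fun l => (x, l)) := by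
          intro w hw
          rw [mem_filter, hF] at hw
          obtain ⟨⟨_, ⟨z, _, hzK, hadj, hwz⟩ | hfb⟩, rfl⟩ := hw
          · rw [mem_union]
            left
            rw [mem_image]
            refine ⟨z, ?_, Prod.ext rfl hwz.symm⟩
            rw [mem_filter, mem_sdiff]
            exact ⟨⟨mem_univ _, hzK⟩, hadj⟩
          · rw [mem_union]
            right
            rw [mem_image]
            exact ⟨w.2, hfb, rfl⟩
        exact (card_le_card h4).trans ((card_union_le _ _).trans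
          (Nat.add_le_add card_image_le (card_image_le.trans (hFb _))))
      have h4 := hout (cl x) (hclI x) (val x) (hclK x) (hcore x).2
      omega)
    (by
      intro i l hl
      by_cases hi : i ∈ I
      · have h3 : (F.filter (fun z => cl z.1 = i ∧ z.2 = l)).card ≤
            (((S.filter (fun z => f1 z = l)).biUnion (fun z => (K i).filter (fun v => G.Adj z v)) ∪
            (Z.filter (fun u => q u = u ∧ f2 u = l ∧ ∀ z ∈ cls Z q u, z ∉ K i)).biUnion
              (fun u => (K i).filter (fun v => v ∈ CN G Z q u))) ∪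
            (univ.filter (fun x => cl x = i ∧ l ∈ Fb (val x))).image val).card := by
          apply card_le_card_of_injOn (fun w => val w.1)
          · intro w hw
            rw [mem_coe, mem_filter, hF] at hw
            obtain ⟨⟨_, ⟨z, hz, hzK, hadj, hwz⟩ | hfb⟩, hcl, hwl⟩ := hw
            swap
            · rw [mem_coe, mem_union]
              right
              rw [mem_image]
              exact ⟨w.1, mem_filter.mpr ⟨mem_univ _, hcl, hwl ▸ hfb⟩, rfl⟩
            rw [mem_coe, mem_union]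
            left
            rw [mem_union, mem_biUnion, mem_biUnion]
            have hwK : val w.1 ∈ K i := hcl ▸ hclK w.1
            by_cases hzS : z ∈ S
            · left
              refine ⟨z, mem_filter.mpr ⟨hzS, ?_⟩, mem_filter.mpr ⟨hwK, hadj.symm⟩⟩
              rw [← hwl, hwz, hg, if_pos hzS]
            · right
              have hzZ : z ∈ Z := hz.resolve_left hzS
              have hf2z : f2 z = l := by rw [← hwl, hwz, hg, if_neg hzS]
              obtain ⟨hq1, hq2⟩ := hgood.qZ z hzZ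
              refine ⟨q z, mem_filter.mpr ⟨hq1, hq2, ?_, ?_⟩, mem_filter.mpr ⟨hwK, ?_⟩⟩
              · rw [← hf2 z hzZ, hf2z]
              · intro z' hz' hz'K
                unfold cls at hz'
                rw [mem_filter] at hz'
                rw [hPal, mem_sdiff, hBq, if_pos hi] at hl
                apply hl.2
                rw [mem_union]
                left
                rw [mem_image]
                refine ⟨z', mem_filter.mpr ⟨hz'K, hz'.1⟩, ?_⟩
                rw [hf2 z' hz'.1, hz'.2, ← hf2 z hzZ, hf2z]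
              · unfold CN
                rw [mem_filter]
                refine ⟨mem_univ _, z, ?_, hadj.symm⟩
                unfold cls
                exact mem_filter.mpr ⟨hzZ, rfl⟩
          · intro w hw w' hw' heq
            rw [mem_coe, mem_filter] at hw hw'
            exact Prod.ext (hval heq) (hw.2.2.trans hw'.2.2.symm)
        have h4 := h3.trans ((card_union_le _ _).trans (Nat.add_le_add
          ((card_union_le _ _).trans (Nat.add_le_add card_biUnion_le card_biUnion_le))
          card_image_le))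
        have h5 := h1' i hi l
        have h6 := h2' i hi l
        have h7 : 64 * (univ.filter (fun x => cl x = i ∧ l ∈ Fb (val x))).card ≤ s := by
          rw [hPal, mem_sdiff, mem_union, not_or, hPop, mem_filter, not_and, not_lt] at hl
          exact hl.2.2 hl.1
        unfold dg at h5
        omega
      · have : F.filter (fun z => cl z.1 = i ∧ z.2 = l) = ∅ :=
          filter_eq_empty_iff.mpr (fun w _ h => hempty i hi w.1 h.1)
        rw [this, card_empty]
        omega)
    (by
      intro x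
      have h3 : (univ.filter (fun y => Γ.Adj x y ∧ cl y ≠ cl x)).card ≤
          dg G (univ \ K (cl x)) (val x) := by
        unfold dg
        apply card_le_card_of_injOn val
        · intro y hy
          rw [mem_coe, mem_filter, hΓ] at hy
          rw [mem_coe, mem_filter, mem_sdiff]
          refine ⟨⟨mem_univ _, fun hyK => ?_⟩, hy.2.1⟩
          exact hy.2.2 (huniq (val y) _ _ (hclI y) (hclI x) (hclK y) hyK)
        · exact hval.injOn
      have h4 := hout (cl x) (hclI x) (val x) (hclK x) (hcore x).2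
      omega)
    (by
      intro i
      by_cases hi : i ∈ I
      · have h3 : (univ.filter (fun z : X × X => cl z.1 = i ∧ Γ.Adj z.1 z.2 ∧ cl z.2 ≠ i)).card ≤
            ∑ v ∈ K i, dg G (univ \ K i) v := by
          unfold dg
          rw [← card_sigma]
          apply card_le_card_of_injOn (fun w => ⟨val w.1, val w.2⟩)
          · intro w hw
            rw [mem_coe, mem_filter, hΓ] at hw
            rw [mem_coe, mem_sigma, mem_filter, mem_sdiff]
            refine ⟨hw.2.1 ▸ hclK w.1, ⟨mem_univ _, fun hyK => ?_⟩, hw.2.2.1⟩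
            exact hw.2.2.2 (huniq (val w.2) _ _ (hclI w.2) hi (hclK w.2) hyK)
          · intro w _ w' _ heq
            simp only [Sigma.mk.injEq, heq_eq_eq] at heq
            exact Prod.ext (hval heq.1) (hval heq.2)
        have h4 := htot i hi
        have h5 : D ^ 2 ≤ (2 * s) ^ 2 := Nat.pow_le_pow_left (by omega) 2
        nlinarith
      · have : univ.filter (fun z : X × X => cl z.1 = i ∧ Γ.Adj z.1 z.2 ∧ cl z.2 ≠ i) = ∅ :=
          filter_eq_empty_iff.mpr (fun w _ h => hempty i hi w.1 h.1)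
        rw [this, card_empty]
        simp)
    (by
      intro o
      have h3 := hPcard o
      have h4 : D ≤ 2 * s := by omega
      calc 12 * (P o).card ≤ 12 * (D * (2 * p)) := Nat.mul_le_mul_left _ h3
        _ = D * (24 * p) := by ring
        _ ≤ 2 * s * (24 * p) := Nat.mul_le_mul_right _ h4
        _ = s * (48 * p) := by ring
        _ ≤ s * (50 * p) := Nat.mul_le_mul_left _ (by omega))
    (by
      intro x
      have h3 : (∑ o, (row (P o) x : ℝ)) ≤ D * ((2 * p : ℕ) : ℝ) := by exact_mod_cast hrow x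
      rw [← sum_mul]
      have h4 : (0 : ℝ) ≤ (1 / 2) ^ (50 * p) := by positivity
      have h5 : (0 : ℝ) ≤ D := Nat.cast_nonneg _
      calc (∑ o, (row (P o) x : ℝ)) * (1 / 2) ^ (50 * p)
          ≤ D * ((2 * p : ℕ) : ℝ) * (1 / 2) ^ (50 * p) := mul_le_mul_of_nonneg_right h3 h4
        _ = D * (((2 * p : ℕ) : ℝ) * (1 / 2) ^ (50 * p)) := by ring
        _ ≤ D * (1 / 32) := mul_le_mul_of_nonneg_left hpb h5
        _ ≤ s / 16 := by linarith)
    (by
      intro i l _
      have h3 : (∑ o, (((P o).filter (fun z => cl z.1 = i ∧ z.2 = l)).card : ℝ)) ≤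
          ((D : ℝ) + 1) * ((2 * p : ℕ) : ℝ) := by exact_mod_cast hlab i l
      rw [← sum_mul]
      have h4 : (0 : ℝ) ≤ (1 / 2) ^ (50 * p) := by positivity
      have h5 : (0 : ℝ) ≤ (D : ℝ) + 1 := by positivity
      calc (∑ o, (((P o).filter (fun z => cl z.1 = i ∧ z.2 = l)).card : ℝ)) * (1 / 2) ^ (50 * p)
          ≤ ((D : ℝ) + 1) * ((2 * p : ℕ) : ℝ) * (1 / 2) ^ (50 * p) :=
            mul_le_mul_of_nonneg_right h3 h4
        _ = ((D : ℝ) + 1) * (((2 * p : ℕ) : ℝ) * (1 / 2) ^ (50 * p)) := by ring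
        _ ≤ ((D : ℝ) + 1) * (1 / 32) := mul_le_mul_of_nonneg_left hpb h5
        _ ≤ s / 16 := by linarith)
  have hfD : ∀ x, f x ≤ D + E := by
    intro x
    have := hf1 x
    rw [hPal, mem_sdiff, mem_range] at this
    omega
  obtain ⟨ff, hff⟩ : ∃ ff : V → ℕ, ∀ x, ff (val x) = f x := by
    refine ⟨fun v => if h : ∃ x, val x = v then f h.choose else 0, fun x => ?_⟩
    have h : ∃ y, val y = val x := ⟨x, rfl⟩
    simp only [dif_pos h]
    rw [hval h.choose_spec]
  refine ⟨ff, ?_, ?_, ?_, ?_, ?_, ?_⟩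
  · intro v hS hZ
    obtain ⟨x, rfl⟩ := hsurj v hS hZ
    rw [hff]
    exact hfD _
  · intro v hS hZ
    obtain ⟨x, rfl⟩ := hsurj v hS hZ
    rw [hff]
    intro hfb
    apply hf3 x
    rw [hF]
    exact ⟨hfD _, Or.inr hfb⟩
  · intro v v' hS hZ hS' hZ' hadj
    obtain ⟨x, rfl⟩ := hsurj v hS hZ
    obtain ⟨x', rfl⟩ := hsurj v' hS' hZ'
    rw [hff, hff]
    intro heq
    by_cases hcl : cl x = cl x'
    · have h3 := hf2' _ _ hcl heq
      exact hadj.ne (congrArg val h3)
    · exact hf4 x x' ((hΓ _ _).mpr hadj) hcl heq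
  · intro v hS hZ z hz hadj
    obtain ⟨x, rfl⟩ := hsurj v hS hZ
    rw [hff]
    intro heq
    apply hf3 x
    rw [hF]
    refine ⟨hfD _, Or.inl ⟨z, Or.inl hz, ?_, hadj, ?_⟩⟩
    · exact fun hzK => Finset.disjoint_left.mp (hgood.SK _ (hclI x)) hz hzK
    · rw [hg, if_pos hz]
      exact heq
  · intro v hS hZ z hz hadj
    obtain ⟨x, rfl⟩ := hsurj v hS hZ
    rw [hff]
    intro heq
    have hzS : z ∉ S := fun h => Finset.disjoint_left.mp hgood.SZ h hz
    by_cases hzK : z ∈ K (cl x)
    · have h3 := hf1 x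
      rw [hPal, mem_sdiff, hBq, if_pos (hclI _)] at h3
      apply h3.2
      rw [heq]
      exact mem_union_left _ (mem_image_of_mem _ (mem_filter.mpr ⟨hzK, hz⟩))
    · apply hf3 x
      rw [hF]
      refine ⟨hfD _, Or.inl ⟨z, Or.inr hz, hzK, hadj, ?_⟩⟩
      rw [hg, if_neg hzS]
      exact heq
  · intro x
    refine le_trans ?_ ((hf5 x).trans (by omega))
    unfold load hits
    apply card_le_card_of_surjOn val
    intro y hy
    rw [mem_coe, mem_filter, mem_filter] at hy
    obtain ⟨⟨_, hyc⟩, hadj, hnear⟩ := hy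
    obtain ⟨y, rfl⟩ := hsurj y hyc.1 hyc.2
    rw [hff] at hnear
    refine ⟨y, ?_, rfl⟩
    rw [mem_coe, mem_filter, hP]
    exact ⟨mem_univ _, hfD _, hadj, hnear⟩

end Pool.Agent.H8.MR
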