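import Pool.Agent.H8.MR.Stm
import Pool.Agent.H8.HY.Circ

/-!
# Assembly of the vertex labelling
-/

set_option autoImplicit false
open Classical Finset

namespace Pool.Agent.H8.MR
open Pool.Agent.K1H34.HYC hiding load S_A1 S_A2 S_A3 S_COL

theorem load_split {V : Type} [Fintype V] (G : SimpleGraph V) (B : V → V → Finset ℕ)
    (S Z : Finset V) (f1 f2 f3 : V → ℕ) (x : V) :
    load G B univ (fun v => if v ∈ S then f1 v else if v ∈ Z then f2 v else f3 v) x ≤
      load G B S f1 x + load G B Z f2 x + load G B (univ.filter (fun v => v ∉ S ∧ v ∉ Z)) f3 x := by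
  unfold load
  refine le_trans (Finset.card_le_card (t := (S.filter (fun y => G.Adj x y ∧
    f1 y ∈ B x y) ∪ Z.filter (fun y => G.Adj x y ∧ f2 y ∈ B x y)) ∪
    (univ.filter (fun v => v ∉ S ∧ v ∉ Z)).filter
      (fun y => G.Adj x y ∧ f3 y ∈ B x y)) ?_) ?_
  · intro y hy
    rw [mem_filter] at hy
    obtain ⟨-, hy1, hy2⟩ := hy
    rw [mem_union, mem_union, mem_filter, mem_filter, mem_filter, mem_filter]
    by_cases hyS : y ∈ S
    · simp only [hyS, if_true] at hy2
      exact Or.inl (Or.inl ⟨hyS, hy1, hy2⟩)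
    · by_cases hyz : y ∈ Z
      · simp only [hyS, hyz, if_true, if_false] at hy2
        exact Or.inl (Or.inr ⟨hyz, hy1, hy2⟩)
      · simp only [hyS, hyz, if_false] at hy2
        exact Or.inr ⟨⟨mem_univ _, hyS, hyz⟩, hy1, hy2⟩
  · refine (Finset.card_union_le _ _).trans ?_
    exact Nat.add_le_add_right (Finset.card_union_le _ _) _

theorem load_mono {V : Type} (G : SimpleGraph V) (B B' : V → V → Finset ℕ) (A : Finset V)
    (f : V → ℕ) (x : V) (h : ∀ y, B x y ⊆ B' x y) : load G B A f x ≤ load G B' A f x := by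
  unfold load
  refine card_le_card fun y hy => ?_
  rw [mem_filter] at hy ⊢
  exact ⟨hy.1, hy.2.1, h y hy.2.2⟩

theorem t_COL (hA1 : S_A1) (hA2 : S_A2) (hA3 : S_A3) (hS : S_STRUCT) : S_COL := by
  obtain ⟨C1, D1, h1⟩ := hA1
  obtain ⟨C2, D2, h2⟩ := hA2
  obtain ⟨C3, D3, h3⟩ := hA3
  obtain ⟨D4, h4⟩ := hS
  refine ⟨4 * C1 + 4 * C2 + C3 + 2, D1 + D2 + D3 + D4, ?_⟩
  intro D hD p hp hpl V _ G B Fb hdeg hB hB2 hFb
  obtain ⟨I, K, S, Z, q, hg⟩ := h4 D (by omega) V G hdeg
  have hp2 : (1 : ℝ) ≤ p := by exact_mod_cast hp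
  have hpl1 : (p : ℝ) ≤ Real.log D := by linarith
  have hpl2 : ((2 * p : ℕ) : ℝ) ≤ Real.log D := by
    push_cast
    exact hpl
  set B' : V → V → Finset ℕ := fun x y => B x y ∪ Fb y with hB'
  have hBc : ∀ x y, (B' x y).card ≤ 2 * (2 * p) := by
    intro x y
    have e1 := card_union_le (B x y) (Fb y)
    have e2 := hB x y
    have e3 := hFb y
    simp only [hB']
    omega
  obtain ⟨f1, a1, a2, a3, a4⟩ := h1 D (by omega) (2 * p) (by omega) hpl2 V G B' I K S Z q hdeg
    hBc hg
  obtain ⟨f2, b1, b2, b3, b4, b5, b6⟩ :=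
    h2 D (by omega) (2 * p) (by omega) hpl2 V G B' I K S Z q hdeg hBc hg f1
  obtain ⟨f3, c1, c0, c2, c3, c4, c5⟩ :=
    h3 D (by omega) p hp hpl1 V G B Fb I K S Z q hdeg hB hB2 hFb hg f1 f2 b2 a4 b6
  have hSZ : ∀ v, v ∈ S → v ∉ Z := fun v hv hz => Finset.disjoint_left.1 hg.SZ hv hz
  obtain ⟨f0, hf0⟩ : ∃ f0 : V → ℕ, f0 = fun v => if v ∈ S then f1 v else if v ∈ Z then f2 v
    else f3 v := ⟨_, rfl⟩
  have hf0S : ∀ v ∈ S, f0 v = f1 v := fun v hv => by simp [hf0, hv]
  have hf0Z : ∀ v ∈ Z, f0 v = f2 v := fun v hv => by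
    have : v ∉ S := fun h => hSZ v h hv
    simp [hf0, hv, this]
  have hf0C : ∀ v, v ∉ S → v ∉ Z → f0 v = f3 v := fun v hv hv' => by simp [hf0, hv, hv']
  have hf0le : ∀ v, f0 v ≤ D + C3 * p := by
    intro v
    by_cases hv : v ∈ S
    · rw [hf0S v hv]
      exact (a1 v hv).trans (Nat.le_add_right _ _)
    · by_cases hz : v ∈ Z
      · rw [hf0Z v hz]
        exact (b1 v hz).trans (Nat.le_add_right _ _)
      · rw [hf0C v hv hz]
        exact c1 v hv hz
  have hf0p : ∀ x y, G.Adj x y → f0 x ≠ f0 y := by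
    intro x y hxy
    by_cases hx : x ∈ S
    · rw [hf0S x hx]
      by_cases hy : y ∈ S
      · rw [hf0S y hy]
        exact a2 x hx y hy hxy
      · by_cases hyz : y ∈ Z
        · rw [hf0Z y hyz]
          exact (b4 y hyz x hx hxy.symm).symm
        · rw [hf0C y hy hyz]
          exact (c3 y hy hyz x hx hxy.symm).symm
    · by_cases hxz : x ∈ Z
      · rw [hf0Z x hxz]
        by_cases hy : y ∈ S
        · rw [hf0S y hy]
          exact b4 x hxz y hy hxy
        · by_cases hyz : y ∈ Z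
          · rw [hf0Z y hyz]
            exact b3 x hxz y hyz hxy
          · rw [hf0C y hy hyz]
            exact (c4 y hy hyz x hxz hxy.symm).symm
      · rw [hf0C x hx hxz]
        by_cases hy : y ∈ S
        · rw [hf0S y hy]
          exact c3 x hx hxz y hy hxy
        · by_cases hyz : y ∈ Z
          · rw [hf0Z y hyz]
            exact c4 x hx hxz y hyz hxy
          · rw [hf0C y hy hyz]
            exact c2 x y hx hxz hy hyz hxy
  -- the vertices with a forbidden label
  obtain ⟨w, hw⟩ : ∃ w : ℕ, w = C1 * (2 * p) + C2 * (2 * p) := ⟨_, rfl⟩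
  obtain ⟨W, hW⟩ : ∃ W : Finset V, ∀ v, v ∈ W ↔ (v ∈ S ∨ v ∈ Z) ∧ f0 v ∈ Fb v :=
    ⟨univ.filter (fun v => (v ∈ S ∨ v ∈ Z) ∧ f0 v ∈ Fb v), fun v => by simp⟩
  have hWdeg : ∀ x, (W.filter (fun y => G.Adj x y)).card ≤ w := by
    intro x
    have e1 : W.filter (fun y => G.Adj x y) ⊆
        S.filter (fun y => G.Adj x y ∧ f1 y ∈ B' x y) ∪
        Z.filter (fun y => G.Adj x y ∧ f2 y ∈ B' x y) := by
      intro y hy
      rw [mem_filter, hW] at hy
      obtain ⟨⟨hy1, hy2⟩, hy3⟩ := hy
      rw [mem_union, mem_filter, mem_filter]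
      rcases hy1 with h | h
      · left
        rw [hf0S y h] at hy2
        exact ⟨h, hy3, mem_union_right _ hy2⟩
      · right
        rw [hf0Z y h] at hy2
        exact ⟨h, hy3, mem_union_right _ hy2⟩
    have e2 := (card_le_card e1).trans (card_union_le _ _)
    have e3 := a3 x
    have e4 := b5 x
    unfold load at e3 e4
    omega
  -- new labels
  let GW : SimpleGraph V :=
    { Adj := fun a b => G.Adj a b ∧ a ∈ W ∧ b ∈ W
      symm := ⟨fun a b h => ⟨h.1.symm, h.2.2, h.2.1⟩⟩
      loopless := ⟨fun a h => G.loopless.irrefl a h.1⟩ }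
  set N0 := D + C3 * p with hN0
  obtain ⟨g, hg1, hg2⟩ := Pool.Agent.H8.HY.greedyV GW
    (fun v => Finset.Ico (N0 + 1) (N0 + 1 + (w + p + 1)) \ Fb v) W (by
      intro v hv
      have e1 : (GW.neighborSet v).ncard ≤ w := by
        refine le_trans ?_ (hWdeg v)
        rw [← Set.ncard_coe_finset]
        apply Set.ncard_le_ncard _ (Set.toFinite _)
        intro y hy
        rw [mem_coe, mem_filter]
        exact ⟨hy.2.2, hy.1⟩
      have e2 := Finset.le_card_sdiff (Fb v) (Finset.Ico (N0 + 1) (N0 + 1 + (w + p + 1)))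
      rw [Nat.card_Ico] at e2
      have e3 := hFb v
      omega)
  have hgI : ∀ v ∈ W, N0 < g v ∧ g v < N0 + 1 + (w + p + 1) ∧ g v ∉ Fb v := by
    intro v hv
    have := hg1 v hv
    rw [mem_sdiff, mem_Ico] at this
    exact ⟨by omega, this.1.2, this.2⟩
  have hbound : N0 + w + p + 1 ≤ D + (4 * C1 + 4 * C2 + C3 + 2) * p := by
    have e1 : (4 * C1 + 4 * C2 + C3 + 2) * p = 4 * (C1 * p) + 4 * (C2 * p) + C3 * p + 2 * p := by
      ring
    have e2 : w = 2 * (C1 * p) + 2 * (C2 * p) := by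
      rw [hw]
      ring
    rw [e1, hN0, e2]
    omega
  refine ⟨fun v => if v ∈ W then g v else f0 v, ?_, ?_, ?_, ?_⟩
  · intro v
    by_cases hv : v ∈ W
    · simp only [hv, if_true]
      have := hgI v hv
      omega
    · simp only [hv, if_false]
      have := hf0le v
      omega
  · intro v
    by_cases hv : v ∈ W
    · simp only [hv, if_true]
      exact (hgI v hv).2.2
    · simp only [hv, if_false]
      by_cases hvv : v ∈ S ∨ v ∈ Z
      · intro h
        exact hv ((hW v).2 ⟨hvv, h⟩)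
      · push Not at hvv
        rw [hf0C v hvv.1 hvv.2]
        exact c0 v hvv.1 hvv.2
  · intro x y hxy
    by_cases hx : x ∈ W
    · by_cases hy : y ∈ W
      · simp only [hx, hy, if_true]
        exact hg2 x hx y hy ⟨hxy, hx, hy⟩
      · simp only [hx, hy, if_true, if_false]
        have e1 := (hgI x hx).1
        have e2 := hf0le y
        omega
    · by_cases hy : y ∈ W
      · simp only [hx, hy, if_true, if_false]
        have e1 := (hgI y hy).1
        have e2 := hf0le x
        omega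
      · simp only [hx, hy, if_false]
        exact hf0p x y hxy
  · intro x
    have e1 : load G B univ (fun v => if v ∈ W then g v else f0 v) x ≤
        (W.filter (fun y => G.Adj x y)).card + load G B univ f0 x := by
      unfold load
      refine le_trans (card_le_card (t := W.filter (fun y => G.Adj x y) ∪
        univ.filter (fun y => G.Adj x y ∧ f0 y ∈ B x y)) ?_) (card_union_le _ _)
      intro y hy
      rw [mem_filter] at hy
      obtain ⟨-, hy1, hy2⟩ := hy
      rw [mem_union, mem_filter, mem_filter]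
      by_cases hyW : y ∈ W
      · exact Or.inl ⟨hyW, hy1⟩
      · simp only [hyW, if_false] at hy2
        exact Or.inr ⟨mem_univ _, hy1, hy2⟩
    have e2 := load_split G B S Z f1 f2 f3 x
    rw [← hf0] at e2
    have hsub : ∀ y, B x y ⊆ B' x y := fun y => subset_union_left
    have e3 := (load_mono G B B' S f1 x hsub).trans (a3 x)
    have e4 := (load_mono G B B' Z f2 x hsub).trans (b5 x)
    have e5 := c5 x
    have e6 := hWdeg x
    have e7 : (4 * C1 + 4 * C2 + C3 + 2) * p = 4 * (C1 * p) + 4 * (C2 * p) + C3 * p + 2 * p := by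
      ring
    have e8 : w = 2 * (C1 * p) + 2 * (C2 * p) := by
      rw [hw]
      ring
    have e9 : C1 * (2 * p) = 2 * (C1 * p) := by ring
    have e10 : C2 * (2 * p) = 2 * (C2 * p) := by ring
    rw [e7]
    rw [e9] at e3
    rw [e10] at e4
    rw [e8] at e6
    omega

end Pool.Agent.H8.MR
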