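import Pool.Agent.H8.MR.A1
import Pool.Agent.H8.MR.A2
import Pool.Agent.H8.MR.A3
import Pool.Agent.H8.MR.Col
import Pool.Graph.R_pool_sql_team_seeded_efc1946e.K1H34.HYC.Final

/-!
# The vertex labelling
-/

set_option autoImplicit false

namespace Pool.Agent.H8.MR

open Pool.Agent.K1H34.HYC hiding load S_A1 S_A2 S_A3 S_COL t_COL

theorem col : S_COL := by
  have hTUP : S_TUP := Pool.Agent.K1H26.HYC.t_TUP
  have hGLLL : S_GLLL := Pool.Agent.K1H69.HYC.t_GLLL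
  have hHITS : S_HITS := Pool.Agent.K1H8.HYC.t_HITS hTUP hGLLL
  have hSEQ : S_SEQ := t_SEQ hHITS
  have hPART : S_PART := Pool.Agent.K1H37.HYC.t_PART
  have hBRK : S_BRK := Pool.Agent.K1H38.HYC.t_BRK
  have hGCL : S_GCL := Pool.Agent.K1H34.HYC.t_GCL hSEQ hPART hBRK
  have hSUB : S_SUB := Pool.Agent.K1H37.HYC.t_SUB
  have hNAIVE : S_NAIVE := Pool.Agent.K1H59.HYC.t_NAIVE hTUP hGLLL t_TWO t_TRI
  have hST1 : S_ST1 := Pool.Agent.K1H4.HYC.t_ST1 hSUB hNAIVE hGCL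
  have hNEG : S_NEG := Pool.Agent.K1H2.HYC.t_NEG
  have hLOP : S_LOP := Pool.Agent.K1H69.HYC.t_LOP
  have hHINJ : S_HINJ := Pool.Agent.K1H69.HYC.t_HINJ hTUP hNEG hLOP
  have hPOP : S_POP := Pool.Agent.K1H38.HYC.t_POP
  have hCLUS : S_CLUS := Pool.Agent.K1H45.HYC.t_CLUS
  have hMATCH : S_MATCH := Pool.Agent.K1H63.HYC.t_MATCH
  have hGREEDY : S_GREEDY := Pool.Agent.K1H38.HYC.t_GREEDY
  have hBASE : S_BASE := Pool.Agent.K1H66.HYC.t_BASE hCLUS hMATCH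
  have hATT : S_ATT := Pool.Agent.K1H28.HYC.t_ATT hGREEDY
  have hSTRUCT : S_STRUCT := t_STRUCT hBASE hATT
  exact t_COL (t_A1 hST1 hPOP) (t_A2 hGCL hPOP) (t_A3 hHINJ) hSTRUCT

end Pool.Agent.H8.MR
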