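import Pool.Agent.H8.MR.Stm
import Pool.Agent.H8.TE.Main
import Pool.Graph.R_seed8.Results.MP_b8729f_co.LogarithmicError

/-!
# From the vertex labelling to the extension of total colourings
-/

set_option autoImplicit false

namespace Pool.Agent.H8.MR

open Finset Pool.Agent.TH559.LE
open Pool.Agent.K1H34.HYC (dg)
open Pool.Agent.H8.TE (Tot TotSub)

/-- Extension with forbidden labels of the vertices outside `H`. -/
def ExtF {V : Type} {G : SimpleGraph V} (H : G.Subgraph) (k : ℕ) (Φ : V → Finset ℕ) (c₀ : V → ℕ)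
    (f₀ : Sym2 V → ℕ) : Prop :=
  ∃ (c : V → ℕ) (f : Sym2 V → ℕ), Tot G k c f ∧
    (∀ v ∈ H.verts, c v = c₀ v) ∧ (∀ e ∈ H.edgeSet, f e = f₀ e) ∧ ∀ v, v ∉ H.verts → c v ∉ Φ v

/-- The edges are coloured when the vertices are coloured: few conflicts with an edge colouring. -/
theorem build {V : Type} [Fintype V] (G : SimpleGraph V) (H : G.Subgraph) (D c w k : ℕ)
    (hP : ∀ v, (G.neighborSet v ∩ H.verts).ncard ≤ c)
    (c₀ : V → ℕ) (f₀ : Sym2 V → ℕ) (h0 : TotSub H k c₀ f₀)
    (φ : V → ℕ) (hφ0 : ∀ v ∈ H.verts, φ v = c₀ v) (hφk : ∀ v, φ v < k)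
    (hφ : ∀ u v, G.Adj u v → φ u ≠ φ v)
    (ce : V → V → ℕ) (hc1 : ∀ u v, ce u v = ce v u) (hc2 : ∀ u v, G.Adj u v → ce u v ≤ D)
    (hc3 : ∀ u v v', G.Adj u v → G.Adj u v' → v ≠ v' → ce u v ≠ ce u v')
    (hload : ∀ x, {y | G.Adj x y ∧ y ∉ H.verts ∧ φ y = ce x y}.ncard ≤ w)
    (hk : D + 2 * w + 6 * c + 5 ≤ k) :
    ∃ f : Sym2 V → ℕ, Tot G k φ f ∧ ∀ e ∈ H.edgeSet, f e = f₀ e := by
  classical
  obtain ⟨h1, h2, h3, h4, h5⟩ := h0
  let Γ : SimpleGraph V :=
    { Adj := fun u v => G.Adj u v ∧ ¬ H.Adj u v ∧ ((φ u = ce u v ∨ φ v = ce u v) ∨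
        ((∃ w, H.Adj u w ∧ f₀ s(u, w) = ce u v) ∨ (∃ w, H.Adj v w ∧ f₀ s(v, w) = ce u v)))
      symm := ⟨fun u v h => ⟨h.1.symm, fun h' => h.2.1 h'.symm, by
        rw [hc1 v u]
        rcases h.2.2 with (h | h) | (h | h)
        · exact Or.inl (Or.inr h)
        · exact Or.inl (Or.inl h)
        · exact Or.inr (Or.inr h)
        · exact Or.inr (Or.inl h)⟩⟩
      loopless := ⟨fun a h => G.loopless.irrefl a h.1⟩ }
  have hHc : ∀ v, (H.neighborSet v).ncard ≤ c := by
    intro v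
    refine le_trans (Set.ncard_le_ncard (fun u hu => ?_) (Set.toFinite _)) (hP v)
    exact ⟨H.adj_sub hu, H.edge_vert (show H.Adj v u from hu).symm⟩
  have hone : ∀ v l, {u | G.Adj v u ∧ ce v u = l}.ncard ≤ 1 := by
    intro v l
    rw [Set.ncard_le_one (Set.toFinite _)]
    rintro a ⟨ha1, ha2⟩ b ⟨hb1, hb2⟩
    by_contra hne
    exact hc3 v a b ha1 hb1 hne (ha2.trans hb2.symm)
  have hΓ : ∀ v, Pool.Agent.TH559.LE.dg Γ v ≤ w + 2 * c + 1 := by
    intro v
    have e1 : Γ.neighborSet v ⊆ ({u | G.Adj v u ∧ ce v u = φ v} ∪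
        {y | G.Adj v y ∧ y ∉ H.verts ∧ φ y = ce v y}) ∪ ((G.neighborSet v ∩ H.verts) ∪
          {u | G.Adj v u ∧ ∃ w, H.Adj v w ∧ f₀ s(v, w) = ce v u}) := by
      intro u hu
      obtain ⟨g1, g2, g3⟩ := hu
      rcases g3 with (g3 | g3) | (g3 | g3)
      · exact Or.inl (Or.inl ⟨g1, g3.symm⟩)
      · by_cases hu : u ∈ H.verts
        · exact Or.inr (Or.inl ⟨g1, hu⟩)
        · exact Or.inl (Or.inr ⟨g1, hu, g3⟩)
      · exact Or.inr (Or.inr ⟨g1, g3⟩)
      · obtain ⟨x, hx, _⟩ := g3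
        exact Or.inr (Or.inl ⟨g1, H.edge_vert hx⟩)
    have e2 : {u | G.Adj v u ∧ ∃ w, H.Adj v w ∧ f₀ s(v, w) = ce v u}.ncard ≤ c := by
      refine le_trans ?_ (hHc v)
      have e3 : {u | G.Adj v u ∧ ∃ w, H.Adj v w ∧ f₀ s(v, w) = ce v u}.ncard =
          ((fun u => ce v u) '' {u | G.Adj v u ∧ ∃ w, H.Adj v w ∧ f₀ s(v, w) = ce v u}).ncard := by
        rw [Set.InjOn.ncard_image]
        rintro a ⟨ha, _⟩ b ⟨hb, _⟩ hab
        by_contra hne
        exact hc3 v a b ha hb hne hab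
      rw [e3]
      refine le_trans (Set.ncard_le_ncard (t := (fun w => f₀ s(v, w)) '' (H.neighborSet v)) ?_
        (Set.toFinite _)) (Set.ncard_image_le (Set.toFinite _))
      rintro l ⟨u, ⟨_, x, hx, hx'⟩, rfl⟩
      exact ⟨x, hx, hx'⟩
    have e4 := Set.ncard_le_ncard e1 (Set.toFinite _)
    have e5 := Set.ncard_union_le ({u | G.Adj v u ∧ ce v u = φ v} ∪
        {y | G.Adj v y ∧ y ∉ H.verts ∧ φ y = ce v y}) ((G.neighborSet v ∩ H.verts) ∪
          {u | G.Adj v u ∧ ∃ w, H.Adj v w ∧ f₀ s(v, w) = ce v u})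
    have e6 := Set.ncard_union_le {u | G.Adj v u ∧ ce v u = φ v}
        {y | G.Adj v y ∧ y ∉ H.verts ∧ φ y = ce v y}
    have e7 := Set.ncard_union_le (G.neighborSet v ∩ H.verts)
          {u | G.Adj v u ∧ ∃ w, H.Adj v w ∧ f₀ s(v, w) = ce v u}
    have e8 := hone v (φ v)
    have e9 := hload v
    have e10 := hP v
    unfold Pool.Agent.TH559.LE.dg
    omega
  -- lists for the edges in conflict
  set L : Sym2 V → Finset ℕ := fun z => (Finset.Ico (D + 1) k).filter
    (fun x => ∀ a ∈ z, φ a ≠ x ∧ ∀ b, H.Adj a b → f₀ s(a, b) ≠ x) with hL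
  have hLc : ∀ u v, k ≤ (L s(u, v)).card + D + 1 + 2 + 2 * c := by
    intro u v
    set X : V → Finset ℕ := fun a => insert (φ a) ((H.neighborSet a).toFinset.image
      (fun b => f₀ s(a, b))) with hX
    have hXc : ∀ a, (X a).card ≤ c + 1 := by
      intro a
      refine (Finset.card_insert_le _ _).trans (Nat.succ_le_succ ?_)
      refine Finset.card_image_le.trans ?_
      rw [← Set.ncard_eq_toFinset_card']
      exact hHc a
    have e1 : Finset.Ico (D + 1) k ⊆ L s(u, v) ∪ (X u ∪ X v) := by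
      intro x hx
      by_cases hxL : x ∈ L s(u, v)
      · exact mem_union_left _ hxL
      · apply mem_union_right
        simp only [hL, mem_filter, not_and, not_forall] at hxL
        obtain ⟨a, ha, hxa⟩ := hxL hx
        have hxX : x ∈ X a := by
          by_cases hxφ : φ a = x
          · rw [hX, ← hxφ]
            exact mem_insert_self _ _
          · obtain ⟨b, hb, hb'⟩ := hxa hxφ
            push Not at hb'
            apply mem_insert_of_mem
            rw [mem_image]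
            exact ⟨b, by rw [Set.mem_toFinset]; exact hb, hb'⟩
        rcases Sym2.mem_iff.1 ha with rfl | rfl
        · exact mem_union_left _ hxX
        · exact mem_union_right _ hxX
    have e2 := (card_le_card e1).trans (card_union_le _ _)
    have e3 := card_union_le (X u) (X v)
    have e4 := hXc u
    have e5 := hXc v
    rw [Nat.card_Ico] at e2
    omega
  obtain ⟨d, hd⟩ := greedy Γ ⊥ bot_le L ⟨fun _ => 0, fun u v h => absurd h id,
    fun u v w h => absurd h id⟩ (by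
      intro u v huv _
      have e1 := hΓ u
      have e2 := hΓ v
      have e3 := hLc u v
      omega)
  have hdL : ∀ u v, Γ.Adj u v → (D < d s(u, v) ∧ d s(u, v) < k) ∧ φ u ≠ d s(u, v) ∧
      ∀ b, H.Adj u b → f₀ s(u, b) ≠ d s(u, v) := by
    intro u v huv
    have e1 := hd.1 u v huv
    simp only [hL, mem_filter, mem_Ico] at e1
    have e2 := e1.2 u (Sym2.mem_mk_left _ _)
    exact ⟨⟨by omega, e1.1.2⟩, e2.1, e2.2⟩
  let cE : Sym2 V → ℕ := fun e => Sym2.lift ⟨ce, hc1⟩ e
  have hcE : ∀ u v, cE s(u, v) = ce u v := fun u v => Sym2.lift_mk _ _ _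
  set f : Sym2 V → ℕ := fun e => if e ∈ H.edgeSet then f₀ e else
    if e ∈ Γ.edgeSet then d e else cE e with hf
  have fH : ∀ u v, H.Adj u v → f s(u, v) = f₀ s(u, v) := by
    intro u v h
    simp only [hf, if_pos (SimpleGraph.Subgraph.mem_edgeSet.2 h)]
  have fΓ : ∀ u v, ¬ H.Adj u v → Γ.Adj u v → f s(u, v) = d s(u, v) := by
    intro u v h h'
    have g1 : s(u, v) ∉ H.edgeSet := fun g => h (SimpleGraph.Subgraph.mem_edgeSet.1 g)
    have g2 : s(u, v) ∈ Γ.edgeSet := h'
    simp only [hf, if_neg g1, if_pos g2]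
  have fR : ∀ u v, ¬ H.Adj u v → ¬ Γ.Adj u v → f s(u, v) = ce u v := by
    intro u v h h'
    have g1 : s(u, v) ∉ H.edgeSet := fun g => h (SimpleGraph.Subgraph.mem_edgeSet.1 g)
    have g2 : s(u, v) ∉ Γ.edgeSet := h'
    simp only [hf, if_neg g1, if_neg g2, hcE]
  have hRe : ∀ u v, G.Adj u v → ¬ H.Adj u v → ¬ Γ.Adj u v → φ u ≠ ce u v ∧
      ∀ b, H.Adj u b → f₀ s(u, b) ≠ ce u v := by
    intro u v g1 g2 g3
    constructor
    · intro h
      exact g3 ⟨g1, g2, Or.inl (Or.inl h)⟩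
    · intro b hb h
      exact g3 ⟨g1, g2, Or.inr (Or.inl ⟨b, hb, h⟩)⟩
  refine ⟨f, ⟨hφ, ?_, ?_, hφk, ?_⟩, ?_⟩
  · intro u v w huv huw hvw
    by_cases a1 : H.Adj u v
    · rw [fH u v a1]
      by_cases b1 : H.Adj u w
      · rw [fH u w b1]
        exact h2 u v w a1 b1 hvw
      · by_cases b2 : Γ.Adj u w
        · rw [fΓ u w b1 b2]
          exact (hdL u w b2).2.2 v a1
        · rw [fR u w b1 b2]
          exact (hRe u w huw b1 b2).2 v a1
    · by_cases a2 : Γ.Adj u v
      · rw [fΓ u v a1 a2]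
        by_cases b1 : H.Adj u w
        · rw [fH u w b1]
          exact ((hdL u v a2).2.2 w b1).symm
        · by_cases b2 : Γ.Adj u w
          · rw [fΓ u w b1 b2]
            exact hd.2 u v w a2 b2 hvw
          · rw [fR u w b1 b2]
            have e1 := (hdL u v a2).1.1
            have e2 := hc2 u w huw
            omega
      · rw [fR u v a1 a2]
        by_cases b1 : H.Adj u w
        · rw [fH u w b1]
          exact ((hRe u v huv a1 a2).2 w b1).symm
        · by_cases b2 : Γ.Adj u w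
          · rw [fΓ u w b1 b2]
            have e1 := (hdL u w b2).1.1
            have e2 := hc2 u v huv
            omega
          · rw [fR u w b1 b2]
            exact hc3 u v w huv huw hvw
  · intro u v huv
    by_cases a1 : H.Adj u v
    · rw [fH u v a1, hφ0 u (H.edge_vert a1)]
      exact h3 u v a1
    · by_cases a2 : Γ.Adj u v
      · rw [fΓ u v a1 a2]
        exact (hdL u v a2).2.1.symm
      · rw [fR u v a1 a2]
        exact (hRe u v huv a1 a2).1.symm
  · intro e he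
    induction e using Sym2.ind with
    | _ u v =>
      have huv : G.Adj u v := he
      by_cases a1 : H.Adj u v
      · rw [fH u v a1]
        exact h5 _ (SimpleGraph.Subgraph.mem_edgeSet.2 a1)
      · by_cases a2 : Γ.Adj u v
        · rw [fΓ u v a1 a2]
          exact (hdL u v a2).1.2
        · rw [fR u v a1 a2]
          have := hc2 u v huv
          omega
  · intro e he
    simp only [hf, if_pos he]

end Pool.Agent.H8.MR
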