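import Pool.Agent.H8.MR.Assemble
import Pool.Agent.H8.MR.Fin

/-!
# Extension of total colourings with `Δ + O(1)` colours
-/

set_option autoImplicit false

namespace Pool.Agent.H8.MR

open Finset
open Pool.Agent.TH559.LE (Ok greedy)
open Pool.Agent.H8.TE (Tot TotSub)

/-- The vertices are coloured greedily. -/
theorem greedy_vertices {V : Type} [Fintype V] (G : SimpleGraph V) (H : G.Subgraph) (D c k : ℕ)
    (hD : ∀ v, (G.neighborSet v).ncard ≤ D) (hk : D + c + 1 ≤ k) (Φ : V → Finset ℕ)
    (hΦ : ∀ v, (Φ v).card ≤ c) (c₀ : V → ℕ) (h4 : ∀ v ∈ H.verts, c₀ v < k)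
    (h0' : ∀ u ∈ H.verts, ∀ v ∈ H.verts, G.Adj u v → c₀ u ≠ c₀ v) :
    ∃ φ : V → ℕ, (∀ v ∈ H.verts, φ v = c₀ v) ∧ (∀ v, φ v < k) ∧
      (∀ u v, G.Adj u v → φ u ≠ φ v) ∧ ∀ v, v ∉ H.verts → φ v ∉ Φ v := by
  classical
  let G' : SimpleGraph V :=
    { Adj := fun a b => G.Adj a b ∧ a ∉ H.verts ∧ b ∉ H.verts
      symm := ⟨fun a b h => ⟨h.1.symm, h.2.2, h.2.1⟩⟩
      loopless := ⟨fun a h => G.loopless.irrefl a h.1⟩ }
  obtain ⟨g, hg1, hg2⟩ := Pool.Agent.H8.HY.greedyV G'
    (fun v => range k \ (Φ v ∪ ((G.neighborSet v ∩ H.verts).toFinset).image c₀))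
    (univ.filter (fun v => v ∉ H.verts)) (by
      intro v hv
      have hv' : v ∉ H.verts := by simpa using hv
      have e1 := Finset.le_card_sdiff (Φ v ∪ ((G.neighborSet v ∩ H.verts).toFinset).image c₀)
        (range k)
      have e2 := card_union_le (Φ v) (((G.neighborSet v ∩ H.verts).toFinset).image c₀)
      have e3 : (((G.neighborSet v ∩ H.verts).toFinset).image c₀).card ≤
          (G.neighborSet v ∩ H.verts).ncard := by
        rw [Set.ncard_eq_toFinset_card']
        exact Finset.card_image_le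
      have e4 : (G'.neighborSet v).ncard + (G.neighborSet v ∩ H.verts).ncard ≤
          (G.neighborSet v).ncard := by
        rw [← Set.ncard_union_eq]
        · apply Set.ncard_le_ncard _ (Set.toFinite _)
          rintro w (hw | hw)
          · exact hw.1
          · exact hw.1
        · rw [Set.disjoint_left]
          intro w hw hw'
          exact hw.2.2 hw'.2
      have e5 := hD v
      have e6 := hΦ v
      rw [card_range] at e1
      omega)
  have hg3 : ∀ v, v ∉ H.verts → g v < k ∧ g v ∉ Φ v ∧ ∀ u, G.Adj v u → u ∈ H.verts →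
      g v ≠ c₀ u := by
    intro v hv
    have h := hg1 v (by simpa using hv)
    rw [mem_sdiff, mem_range, mem_union, not_or] at h
    refine ⟨h.1, h.2.1, ?_⟩
    intro u hu huH he
    apply h.2.2
    rw [mem_image]
    exact ⟨u, by rw [Set.mem_toFinset]; exact ⟨hu, huH⟩, he.symm⟩
  refine ⟨fun v => if v ∈ H.verts then c₀ v else g v, ?_, ?_, ?_, ?_⟩
  · intro v hv
    simp only [if_pos hv]
  · intro v
    by_cases hv : v ∈ H.verts
    · simp only [if_pos hv]
      exact h4 v hv
    · simp only [if_neg hv]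
      exact (hg3 v hv).1
  · intro u v huv
    by_cases hu : u ∈ H.verts
    · by_cases hv : v ∈ H.verts
      · simp only [if_pos hu, if_pos hv]
        exact h0' u hu v hv huv
      · simp only [if_pos hu, if_neg hv]
        exact ((hg3 v hv).2.2 u huv.symm hu).symm
    · by_cases hv : v ∈ H.verts
      · simp only [if_neg hu, if_pos hv]
        exact (hg3 u hu).2.2 v huv hv
      · simp only [if_neg hu, if_neg hv]
        exact hg2 u (by simpa using hu) v (by simpa using hv) ⟨huv, hu, hv⟩
  · intro v hv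
    simp only [if_neg hv]
    exact (hg3 v hv).2.1

/-- Greedy colouring with `2 D + 1` colours. -/
theorem greedy_all {V : Type} [Fintype V] (G : SimpleGraph V) (H : G.Subgraph) (D c k : ℕ)
    (hD : ∀ v, (G.neighborSet v).ncard ≤ D) (hk : D + c + 1 ≤ k) (hk2 : 2 * D + 1 ≤ k)
    (Φ : V → Finset ℕ)
    (hΦ : ∀ v, (Φ v).card ≤ c) (c₀ : V → ℕ) (f₀ : Sym2 V → ℕ) (h0 : TotSub H k c₀ f₀)
    (h0' : ∀ u ∈ H.verts, ∀ v ∈ H.verts, G.Adj u v → c₀ u ≠ c₀ v) : ExtF H k Φ c₀ f₀ := by
  classical
  obtain ⟨h1, h2, h3, h4, h5⟩ := h0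
  obtain ⟨φ, p1, p2, p3, p4⟩ := greedy_vertices G H D c k hD hk Φ hΦ c₀ h4 h0'
  set L : Sym2 V → Finset ℕ := fun z => if z ∈ H.edgeSet then {f₀ z} else
    (range k).filter (fun x => ∀ a ∈ z, φ a ≠ x) with hL
  have hHG : H.spanningCoe ≤ G := fun a b h => H.adj_sub h
  obtain ⟨f, hf⟩ := greedy G H.spanningCoe hHG L ⟨f₀, by
      intro u v huv
      have : s(u, v) ∈ H.edgeSet := huv
      simp [hL, this], by
      intro u v w huv huw hvw
      exact h2 u v w huv huw hvw⟩ (by
    intro u v huv hnH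
    have hz : s(u, v) ∉ H.edgeSet := hnH
    have e1 : range k ⊆ L s(u, v) ∪ {φ u, φ v} := by
      intro x hx
      by_cases hxL : x ∈ L s(u, v)
      · exact mem_union_left _ hxL
      · apply mem_union_right
        simp only [hL, if_neg hz, mem_filter, not_and, not_forall] at hxL
        obtain ⟨a, ha, hxa⟩ := hxL hx
        rw [mem_insert, mem_singleton]
        rcases Sym2.mem_iff.1 ha with rfl | rfl
        · left
          exact (not_not.1 hxa).symm
        · right
          exact (not_not.1 hxa).symm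
    have e2 := (card_le_card e1).trans (card_union_le _ _)
    have e3 : ({φ u, φ v} : Finset ℕ).card ≤ 2 := Finset.card_le_two
    rw [card_range] at e2
    have e4 : Pool.Agent.TH559.LE.dg G u ≤ D := hD u
    have e5 : Pool.Agent.TH559.LE.dg G v ≤ D := hD v
    omega)
  have hfH : ∀ u v, H.Adj u v → f s(u, v) = f₀ s(u, v) := by
    intro u v huv
    have e1 := hf.1 u v (H.adj_sub huv)
    have : s(u, v) ∈ H.edgeSet := huv
    simpa [hL, this] using e1
  have hfR : ∀ u v, G.Adj u v → ¬ H.Adj u v → f s(u, v) < k ∧ φ u ≠ f s(u, v) := by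
    intro u v huv hn
    have e1 := hf.1 u v huv
    have hz : s(u, v) ∉ H.edgeSet := hn
    simp only [hL, if_neg hz, mem_filter, mem_range] at e1
    exact ⟨e1.1, e1.2 u (Sym2.mem_mk_left _ _)⟩
  refine ⟨φ, f, ⟨p3, hf.2, ?_, p2, ?_⟩, p1, ?_, p4⟩
  · intro u v huv
    by_cases h : H.Adj u v
    · rw [hfH u v h, p1 u (H.edge_vert h)]
      exact h3 u v h
    · exact (hfR u v huv h).2.symm
  · intro e he
    induction e using Sym2.ind with
    | _ u v =>
      by_cases h : H.Adj u v
      · rw [hfH u v h]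
        exact h5 _ (SimpleGraph.Subgraph.mem_edgeSet.2 h)
      · exact (hfR u v he h).1
  · intro e he
    induction e using Sym2.ind with
    | _ u v => exact hfH u v he

theorem deg_ncard {V : Type} [Fintype V] (G : SimpleGraph V) (v : V) :
    Pool.Agent.K1H34.HYC.dg G univ v = (G.neighborSet v).ncard := by
  unfold Pool.Agent.K1H34.HYC.dg
  rw [← Set.ncard_coe_finset]
  congr 1
  ext y
  simp

/-- **The extension theorem.** -/
theorem main : ∃ C : ℕ, ∀ (V : Type) [Fintype V] (G : SimpleGraph V) (D c k : ℕ)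
    (H : G.Subgraph) (Φ : V → Finset ℕ), (∀ v, (G.neighborSet v).ncard ≤ D) →
    (∀ v, (G.neighborSet v ∩ H.verts).ncard ≤ c) → (∀ v, (Φ v).card ≤ c) →
    D + C * (c + 1) ≤ k → (((4 * c + 2 : ℕ) : ℝ) ≤ Real.log D ∨ 2 * D + 1 ≤ k) →
    ∀ (c₀ : V → ℕ) (f₀ : Sym2 V → ℕ), TotSub H k c₀ f₀ →
    (∀ u ∈ H.verts, ∀ v ∈ H.verts, G.Adj u v → c₀ u ≠ c₀ v) → ExtF H k Φ c₀ f₀ := by
  classical
  obtain ⟨C, D0, hcol⟩ := col
  refine ⟨4 * C + 12 + D0, ?_⟩
  intro V _ G D c k H Φ hD hP hΦ hk hlog c₀ f₀ h0 h0'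
  have hk' : D + 4 * (C * (c + 1)) + 12 * (c + 1) + D0 * (c + 1) ≤ k := by
    have : (4 * C + 12 + D0) * (c + 1) = 4 * (C * (c + 1)) + 12 * (c + 1) + D0 * (c + 1) := by
      ring
    omega
  have hD0' : D0 ≤ D0 * (c + 1) := Nat.le_mul_of_pos_right _ (by omega)
  by_cases hbig : 2 * D + 1 ≤ k
  · exact greedy_all G H D c k hD (by omega) hbig Φ hΦ c₀ f₀ h0 h0'
  · have hlog' : ((4 * c + 2 : ℕ) : ℝ) ≤ Real.log D := hlog.resolve_right hbig
    have hDD : D0 ≤ D := by
      by_contra hcon
      apply hbig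
      omega
    have hdegD : ∀ v, G.degree v ≤ D := by
      intro v
      rw [← SimpleGraph.card_neighborSet_eq_degree, ← Nat.card_eq_fintype_card,
        Nat.card_coe_set_eq]
      exact hD v
    obtain ⟨ce, hc1, hc2, hc3⟩ := Pool.Agent.H238R2.HY.vizing G D hdegD
    set Fb : V → Finset ℕ := fun v => Φ v ∪ ((G.neighborSet v ∩ H.verts).toFinset).image c₀
      with hFb
    obtain ⟨g, q1, q2, q3, q4⟩ := hcol D hDD (2 * c + 1) (by omega) (by
        push_cast at hlog' ⊢
        linarith) V G (fun x y => {ce x y}) Fb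
      (fun v => by rw [deg_ncard]; exact hD v)
      (fun x y => by
        rw [card_singleton]
        omega)
      (fun y l => by
        have : (univ.filter (fun x => G.Adj y x ∧ l ∈ ({ce x y} : Finset ℕ))).card ≤ 1 := by
          rw [card_le_one]
          intro a ha b hb
          simp only [mem_filter, mem_univ, true_and, mem_singleton] at ha hb
          by_contra hne
          apply hc3 y a b ha.1 hb.1 hne
          rw [hc1 y a, hc1 y b, ← ha.2, hb.2]
        omega)
      (fun v => by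
        have e2 := card_union_le (Φ v) (((G.neighborSet v ∩ H.verts).toFinset).image c₀)
        have e3 : (((G.neighborSet v ∩ H.verts).toFinset).image c₀).card ≤
            (G.neighborSet v ∩ H.verts).ncard := by
          rw [Set.ncard_eq_toFinset_card']
          exact Finset.card_image_le
        have e4 := hP v
        have e5 := hΦ v
        simp only [hFb]
        omega)
    have hCc : C * (2 * c + 1) ≤ 2 * (C * (c + 1)) := by
      have : 2 * (C * (c + 1)) = C * (2 * c + 2) := by ring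
      rw [this]
      exact Nat.mul_le_mul_left _ (by omega)
    set φ : V → ℕ := fun v => if v ∈ H.verts then c₀ v else g v with hφ
    have hφ1 : ∀ v ∈ H.verts, φ v = c₀ v := fun v hv => by simp only [hφ, if_pos hv]
    have hφ2 : ∀ v, v ∉ H.verts → φ v = g v := fun v hv => by simp only [hφ, if_neg hv]
    have hg : ∀ v, v ∉ H.verts → ∀ u, G.Adj v u → u ∈ H.verts → g v ≠ c₀ u := by
      intro v hv u hvu hu he
      apply q2 v
      rw [hFb, he]
      apply mem_union_right
      rw [mem_image]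
      exact ⟨u, by rw [Set.mem_toFinset]; exact ⟨hvu, hu⟩, rfl⟩
    have hφk : ∀ v, φ v < k := by
      intro v
      by_cases hv : v ∈ H.verts
      · rw [hφ1 v hv]
        exact h0.2.2.2.1 v hv
      · rw [hφ2 v hv]
        have := q1 v
        omega
    have hφp : ∀ u v, G.Adj u v → φ u ≠ φ v := by
      intro u v huv
      by_cases hu : u ∈ H.verts
      · rw [hφ1 u hu]
        by_cases hv : v ∈ H.verts
        · rw [hφ1 v hv]
          exact h0' u hu v hv huv
        · rw [hφ2 v hv]
          exact (hg v hv u huv.symm hu).symm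
      · rw [hφ2 u hu]
        by_cases hv : v ∈ H.verts
        · rw [hφ1 v hv]
          exact hg u hu v huv hv
        · rw [hφ2 v hv]
          exact q3 u v huv
    obtain ⟨f, hf1, hf2⟩ := build G H D c (C * (2 * c + 1)) k hP c₀ f₀ h0 φ hφ1 hφk hφp ce hc1 hc2
      hc3 (by
        intro x
        refine le_trans ?_ (q4 x)
        unfold load
        rw [← Set.ncard_coe_finset]
        apply Set.ncard_le_ncard _ (Set.toFinite _)
        rintro y ⟨hy1, hy2, hy3⟩
        rw [mem_coe, mem_filter, mem_singleton]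
        rw [hφ2 y hy2] at hy3
        exact ⟨mem_univ _, hy1, hy3⟩) (by omega)
    refine ⟨φ, f, hf1, hφ1, hf2, ?_⟩
    intro v hv hmem
    rw [hφ2 v hv] at hmem
    apply q2 v
    rw [hFb]
    exact mem_union_left _ hmem

end Pool.Agent.H8.MR
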