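import Pool.Graph.R_pool_sql_team_seeded_efc1946e.K1H34.HYC.Stm

/-!
# Molloy-Reed type extension of total colourings: interface

The project HYC (`K1H34.HYC`) of the library labels the vertices of a graph of maximum degree `D`
with the labels `0..D` such that every vertex `x` has few neighbours `y` whose label is near the
colour of `x y`. Here the test sets are general sets `B x y` of at most `2 p` labels, and in
addition the labels in the set `Fb v` of at most `p` labels are forbidden at `v`.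
-/

set_option autoImplicit false
open Classical Finset

namespace Pool.Agent.H8.MR
open Pool.Agent.K1H34.HYC

/-- number of `y ∈ A` adjacent to `x` with a label in `B x y` -/
noncomputable def load {V : Type} (G : SimpleGraph V) (B : V → V → Finset ℕ) (A : Finset V)
    (f : V → ℕ) (x : V) : ℕ :=
  (A.filter (fun y => G.Adj x y ∧ f y ∈ B x y)).card

/-- A1: labelling of the sparse vertices -/
def S_A1 : Prop :=
  ∃ C D0 : ℕ, ∀ D : ℕ, D0 ≤ D → ∀ p : ℕ, 1 ≤ p → (p : ℝ) ≤ Real.log D →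
    ∀ (V : Type) [Fintype V] (G : SimpleGraph V) (B : V → V → Finset ℕ) (I : Finset V)
      (K : V → Finset V) (S Z : Finset V) (q : V → V), (∀ v, dg G univ v ≤ D) →
      (∀ x y, (B x y).card ≤ 2 * p) →
      Good G D I K S Z q →
      ∃ f : V → ℕ, (∀ v ∈ S, f v ≤ D) ∧ (∀ v ∈ S, ∀ v' ∈ S, G.Adj v v' → f v ≠ f v') ∧
        (∀ x, load G B S f x ≤ C * p) ∧
        ∀ i ∈ I, ∀ ℓ, ((∑ z ∈ S.filter (fun z => f z = ℓ), dg G (K i) z : ℕ) : ℝ) ≤ D / 2 ^ 10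

/-- A2: labelling of the classes -/
def S_A2 : Prop :=
  ∃ C D0 : ℕ, ∀ D : ℕ, D0 ≤ D → ∀ p : ℕ, 1 ≤ p → (p : ℝ) ≤ Real.log D →
    ∀ (V : Type) [Fintype V] (G : SimpleGraph V) (B : V → V → Finset ℕ) (I : Finset V)
      (K : V → Finset V) (S Z : Finset V) (q : V → V), (∀ v, dg G univ v ≤ D) →
      (∀ x y, (B x y).card ≤ 2 * p) →
      Good G D I K S Z q → ∀ f1 : V → ℕ,
      ∃ f : V → ℕ, (∀ z ∈ Z, f z ≤ D) ∧ (∀ z ∈ Z, f z = f (q z)) ∧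
        (∀ z ∈ Z, ∀ z' ∈ Z, G.Adj z z' → f z ≠ f z') ∧
        (∀ z ∈ Z, ∀ v ∈ S, G.Adj z v → f z ≠ f1 v) ∧
        (∀ x, load G B Z f x ≤ C * p) ∧
        ∀ i ∈ I, ∀ ℓ, ((∑ u ∈ Z.filter (fun u => q u = u ∧ f u = ℓ ∧ ∀ z ∈ cls Z q u, z ∉ K i),
          ((K i).filter (fun v => v ∈ CN G Z q u)).card : ℕ) : ℝ) ≤ D / 2 ^ 10

/-- A3: labelling of the cores -/
def S_A3 : Prop :=
  ∃ C D0 : ℕ, ∀ D : ℕ, D0 ≤ D → ∀ p : ℕ, 1 ≤ p → (p : ℝ) ≤ Real.log D →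
    ∀ (V : Type) [Fintype V] (G : SimpleGraph V) (B : V → V → Finset ℕ) (Fb : V → Finset ℕ)
      (I : Finset V)
      (K : V → Finset V) (S Z : Finset V) (q : V → V), (∀ v, dg G univ v ≤ D) →
      (∀ x y, (B x y).card ≤ 2 * p) →
      (∀ y l, (univ.filter (fun x => G.Adj y x ∧ l ∈ B x y)).card ≤ 2 * p) →
      (∀ v, (Fb v).card ≤ p) →
      Good G D I K S Z q → ∀ f1 f2 : V → ℕ, (∀ z ∈ Z, f2 z = f2 (q z)) →
      (∀ i ∈ I, ∀ ℓ, ((∑ z ∈ S.filter (fun z => f1 z = ℓ), dg G (K i) z : ℕ) : ℝ) ≤ D / 2 ^ 10) →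
      (∀ i ∈ I, ∀ ℓ, ((∑ u ∈ Z.filter (fun u => q u = u ∧ f2 u = ℓ ∧ ∀ z ∈ cls Z q u, z ∉ K i),
          ((K i).filter (fun v => v ∈ CN G Z q u)).card : ℕ) : ℝ) ≤ D / 2 ^ 10) →
      ∃ f : V → ℕ, (∀ v, v ∉ S → v ∉ Z → f v ≤ D + C * p) ∧
        (∀ v, v ∉ S → v ∉ Z → f v ∉ Fb v) ∧
        (∀ v v', v ∉ S → v ∉ Z → v' ∉ S → v' ∉ Z → G.Adj v v' → f v ≠ f v') ∧
        (∀ v, v ∉ S → v ∉ Z → ∀ z ∈ S, G.Adj v z → f v ≠ f1 z) ∧
        (∀ v, v ∉ S → v ∉ Z → ∀ z ∈ Z, G.Adj v z → f v ≠ f2 z) ∧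
        ∀ x, load G B (univ.filter (fun v => v ∉ S ∧ v ∉ Z)) f x ≤ C * p

/-- COL: the vertex labelling -/
def S_COL : Prop :=
  ∃ C D0 : ℕ, ∀ D : ℕ, D0 ≤ D → ∀ p : ℕ, 1 ≤ p → 2 * (p : ℝ) ≤ Real.log D →
    ∀ (V : Type) [Fintype V] (G : SimpleGraph V) (B : V → V → Finset ℕ) (Fb : V → Finset ℕ),
      (∀ v, dg G univ v ≤ D) → (∀ x y, (B x y).card ≤ 2 * p) →
      (∀ y l, (univ.filter (fun x => G.Adj y x ∧ l ∈ B x y)).card ≤ 2 * p) →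
      (∀ v, (Fb v).card ≤ p) →
      ∃ f : V → ℕ, (∀ v, f v ≤ D + C * p) ∧ (∀ v, f v ∉ Fb v) ∧ (∀ x y, G.Adj x y → f x ≠ f y) ∧
        ∀ x, load G B univ f x ≤ C * p

end Pool.Agent.H8.MR
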